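import Pool.Agent.Helper17.FP.Stmts

set_option autoImplicit false

open Finset

namespace Pool.Agent.Helper17.FP

open Pool.Agent.Helper17.SO Pool.Agent.Helper17.SV

/-! ### partial sums of the character -/

noncomputable def lupA (q n : ℕ) : ℝ := ∑ m ∈ range n, (jacobiSym (m : ℤ) q : ℝ)

theorem lup_abs_le (q : ℕ) (n : ℤ) : |(jacobiSym n q : ℝ)| ≤ 1 := by
  rcases jacobiSym.trichotomy n q with h | h | h <;> rw [h] <;> norm_num

theorem lup_sum_zero (q : ℕ) (hq : q.Prime) (h2 : q ≠ 2) :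
    ∑ m ∈ range q, (jacobiSym (m : ℤ) q : ℝ) = 0 := by
  have : Fact q.Prime := ⟨hq⟩
  have h1 : ∑ a : ZMod q, quadraticChar (ZMod q) a = 0 := by
    apply quadraticChar_sum_zero
    rw [ZMod.ringChar_zmod_n]
    exact h2
  have h3 : ∑ m ∈ range q, (jacobiSym (m : ℤ) q) = ∑ a : ZMod q, quadraticChar (ZMod q) a := by
    refine Finset.sum_bij' (fun m _ => (m : ZMod q)) (fun a _ => a.val) ?_ ?_ ?_ ?_ ?_
    · intro m _; exact Finset.mem_univ _
    · intro a _; exact Finset.mem_range.2 (ZMod.val_lt a)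
    · intro m hm
      exact ZMod.val_cast_of_lt (Finset.mem_range.1 hm)
    · intro a _
      exact ZMod.natCast_zmod_val a
    · intro m _
      rw [← jacobiSym.legendreSym.to_jacobiSym]
      unfold legendreSym
      simp
  have h4 : ((∑ m ∈ range q, (jacobiSym (m : ℤ) q) : ℤ) : ℝ) = 0 := by
    rw [h3, h1]; simp
  push_cast at h4
  exact h4

theorem lup_A_add (q : ℕ) (hq : q.Prime) (h2 : q ≠ 2) (n : ℕ) : lupA q (q + n) = lupA q n := by
  unfold lupA
  rw [Finset.sum_range_add, lup_sum_zero q hq h2, zero_add]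
  apply Finset.sum_congr rfl
  intro m _
  have : jacobiSym ((q + m : ℕ) : ℤ) q = jacobiSym (m : ℤ) q := by
    apply jacobiSym.mod_left'
    push_cast
    simp
  rw [this]

theorem lup_A_le (q : ℕ) (hq : q.Prime) (h2 : q ≠ 2) (n : ℕ) : |lupA q n| ≤ q := by
  induction n using Nat.strong_induction_on with
  | _ n ih =>
    by_cases h : q ≤ n
    · obtain ⟨k, rfl⟩ := Nat.exists_eq_add_of_le h
      rw [lup_A_add q hq h2]
      exact ih k (by have := hq.pos; omega)
    · have h1 : |lupA q n| ≤ ∑ m ∈ range n, |(jacobiSym (m : ℤ) q : ℝ)| :=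
        Finset.abs_sum_le_sum_abs _ _
      have h3 : ∑ m ∈ range n, |(jacobiSym (m : ℤ) q : ℝ)| ≤ ∑ m ∈ range n, (1 : ℝ) :=
        Finset.sum_le_sum (fun m _ => lup_abs_le q m)
      have h4 : ∑ m ∈ range n, (1 : ℝ) = n := by simp
      have h5 : (n : ℝ) ≤ q := by exact_mod_cast (by omega : n ≤ q)
      linarith

/-- Abel summation for a decreasing weight -/
theorem lup_abel (q : ℕ) (hq : q.Prime) (h2 : q ≠ 2) (g : ℕ → ℝ) (a : ℕ)
    (hg : ∀ n, a ≤ n → g (n + 1) ≤ g n) (hg0 : ∀ n, a ≤ n → 0 ≤ g n) (b : ℕ) (hab : a ≤ b) :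
    ∑ n ∈ Ico a b, (jacobiSym (n : ℤ) q : ℝ) * g n ≤ 2 * q * g a := by
  have key : ∑ n ∈ Ico a b, (jacobiSym (n : ℤ) q : ℝ) * g n ≤
      2 * q * g a - (q - lupA q b) * g b := by
    induction b, hab using Nat.le_induction with
    | base =>
      have h1 := (abs_le.1 (lup_A_le q hq h2 a)).1
      have h3 := hg0 a le_rfl
      simp only [Finset.Ico_self, Finset.sum_empty]
      nlinarith
    | succ b hab ih =>
      rw [Finset.sum_Ico_succ_top hab]
      have h1 : lupA q (b + 1) = lupA q b + (jacobiSym (b : ℤ) q : ℝ) := by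
        unfold lupA; rw [Finset.sum_range_succ]
      have h3 := (abs_le.1 (lup_A_le q hq h2 (b + 1))).2
      have h4 := hg b hab
      have h5 : (q - lupA q (b + 1)) * g (b + 1) ≤ (q - lupA q (b + 1)) * g b :=
        mul_le_mul_of_nonneg_left h4 (by linarith)
      rw [h1] at h5 h3 ⊢
      nlinarith
  have h1 := (abs_le.1 (lup_A_le q hq h2 b)).2
  have h3 := hg0 b hab
  have h4 : 0 ≤ (q - lupA q b) * g b := mul_nonneg (by linarith) h3
  linarith

/-! ### the multiplicative function -/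

noncomputable def lupf (q : ℕ) (hq : q.Prime) (s : ℝ) (hs : 1 < s) : ℕ →*₀ ℝ where
  toFun n := (jacobiSym (n : ℤ) q : ℝ) * (n : ℝ) ^ (-s)
  map_zero' := by
    have : (0 : ℝ) ^ (-s) = 0 := Real.zero_rpow (by linarith)
    simp [this]
  map_one' := by simp [jacobiSym.one_left]
  map_mul' := by
    intro a b
    push_cast
    rw [jacobiSym.mul_left, Real.mul_rpow (Nat.cast_nonneg a) (Nat.cast_nonneg b)]
    push_cast
    ring

theorem lup_f_apply (q : ℕ) (hq : q.Prime) (s : ℝ) (hs : 1 < s) (n : ℕ) :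
    lupf q hq s hs n = (jacobiSym (n : ℤ) q : ℝ) * (n : ℝ) ^ (-s) := rfl

theorem lup_f_norm (q : ℕ) (hq : q.Prime) (s : ℝ) (hs : 1 < s) (n : ℕ) :
    ‖lupf q hq s hs n‖ ≤ (n : ℝ) ^ (-s) := by
  rw [lup_f_apply, Real.norm_eq_abs, abs_mul, abs_of_nonneg (Real.rpow_nonneg (Nat.cast_nonneg n) _)]
  have h1 := lup_abs_le q n
  have h2 : 0 ≤ (n : ℝ) ^ (-s) := Real.rpow_nonneg (Nat.cast_nonneg n) _
  nlinarith

theorem lup_f_summable (q : ℕ) (hq : q.Prime) (s : ℝ) (hs : 1 < s) :
    Summable (fun n => ‖lupf q hq s hs n‖) := by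
  refine Summable.of_nonneg_of_le (fun n => norm_nonneg _) (lup_f_norm q hq s hs) ?_
  exact Real.summable_nat_rpow.2 (by linarith)

/-- the value of the L-series -/
theorem lup_tsum_le (q : ℕ) (hq : q.Prime) (h2 : q ≠ 2) (s : ℝ) (hs : 1 < s) :
    ∑' n, lupf q hq s hs n ≤ Real.log q + 3 := by
  have hsum : Summable (fun n => lupf q hq s hs n) := (lup_f_summable q hq s hs).of_norm
  have ht := hsum.hasSum.tendsto_sum_nat
  have hq0 : (0 : ℝ) < q := by exact_mod_cast hq.pos
  refine le_of_tendsto ht ?_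
  filter_upwards [Filter.eventually_ge_atTop q] with N hN
  have h1 : ∑ n ∈ range N, lupf q hq s hs n =
      ∑ n ∈ range q, lupf q hq s hs n + ∑ n ∈ Ico q N, lupf q hq s hs n :=
    (Finset.sum_range_add_sum_Ico _ hN).symm
  have h3 : ∑ n ∈ Ico q N, lupf q hq s hs n ≤ 2 * q * (q : ℝ) ^ (-s) := by
    have := lup_abel q hq h2 (fun n => (n : ℝ) ^ (-s)) q ?_ ?_ N hN
    · exact this
    · intro n hn
      have hn0 : (0 : ℝ) < n := by exact_mod_cast lt_of_lt_of_le hq.pos hn
      apply Real.rpow_le_rpow_of_nonpos hn0 _ (by linarith)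
      push_cast; linarith
    · intro n _
      exact Real.rpow_nonneg (Nat.cast_nonneg n) _
  have h4 : 2 * q * (q : ℝ) ^ (-s) ≤ 2 := by
    have h5 : (q : ℝ) ^ (-s) ≤ (q : ℝ) ^ (-1 : ℝ) :=
      Real.rpow_le_rpow_of_exponent_le (by exact_mod_cast hq.one_le) (by linarith)
    rw [Real.rpow_neg_one] at h5
    calc 2 * q * (q : ℝ) ^ (-s) ≤ 2 * q * (q : ℝ)⁻¹ :=
          mul_le_mul_of_nonneg_left h5 (by positivity)
      _ = 2 := by field_simp
  have h6 : ∑ n ∈ range q, lupf q hq s hs n ≤ 1 + Real.log q := by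
    have h7 : ∀ n ∈ range q, lupf q hq s hs n ≤ ((n : ℝ))⁻¹ := by
      intro n _
      rcases Nat.eq_zero_or_pos n with rfl | hn
      · simp
      · have h8 := lup_f_norm q hq s hs n
        have h9 : (n : ℝ) ^ (-s) ≤ (n : ℝ) ^ (-1 : ℝ) :=
          Real.rpow_le_rpow_of_exponent_le (by exact_mod_cast hn) (by linarith)
        rw [Real.rpow_neg_one] at h9
        exact (le_abs_self _).trans (h8.trans h9)
    have h10 : ∑ n ∈ range q, ((n : ℝ))⁻¹ ≤ 1 + Real.log q := by
      obtain ⟨k, rfl⟩ : ∃ k, q = k + 1 := ⟨q - 1, by have := hq.pos; omega⟩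
      rw [Finset.sum_range_succ']
      have h11 := harmonic_le_one_add_log k
      unfold harmonic at h11
      push_cast at h11
      have h12 : Real.log k ≤ Real.log (k + 1 : ℝ) := by
        rcases Nat.eq_zero_or_pos k with rfl | hk
        · simp
        · apply Real.log_le_log (by exact_mod_cast hk); linarith
      push_cast
      simp only [inv_zero, add_zero]
      linarith
    exact (Finset.sum_le_sum h7).trans h10
  rw [h1]
  linarith

/-- from the Euler product -/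
theorem lup_euler (q : ℕ) (hq : q.Prime) (h2 : q ≠ 2) (s : ℝ) (hs : 1 < s) (y : ℝ) (N0 : ℕ)
    (hy : ∀ N, N0 ≤ N → y ≤ ∑ p ∈ N.primesBelow, lupf q hq s hs p) :
    y ≤ Real.log (Real.log q + 3) := by
  have h1 := EulerProduct.eulerProduct_completely_multiplicative (lup_f_summable q hq s hs)
  have h3 : Real.exp y ≤ ∑' n, lupf q hq s hs n := by
    refine ge_of_tendsto h1 ?_
    filter_upwards [Filter.eventually_ge_atTop N0] with N hN
    calc Real.exp y ≤ Real.exp (∑ p ∈ N.primesBelow, lupf q hq s hs p) :=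
          Real.exp_le_exp.2 (hy N hN)
      _ = ∏ p ∈ N.primesBelow, Real.exp (lupf q hq s hs p) := Real.exp_sum _ _
      _ ≤ ∏ p ∈ N.primesBelow, (1 - lupf q hq s hs p)⁻¹ := by
          apply Finset.prod_le_prod
          · intro p _; exact (Real.exp_pos _).le
          · intro p hp
            have hpp : p.Prime := Nat.prime_of_mem_primesBelow hp
            have h4 : lupf q hq s hs p < 1 := by
              have h5 := lup_f_norm q hq s hs p
              have h6 : (p : ℝ) ^ (-s) < 1 :=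
                Real.rpow_lt_one_of_one_lt_of_neg (by exact_mod_cast hpp.one_lt) (by linarith)
              exact lt_of_le_of_lt (le_abs_self _) (lt_of_le_of_lt h5 h6)
            have h7 : 0 < 1 - lupf q hq s hs p := by linarith
            rw [← Real.exp_log (inv_pos.2 h7), Real.exp_le_exp, Real.log_inv]
            have := Real.log_le_sub_one_of_pos h7
            linarith
  have h4 := h3.trans (lup_tsum_le q hq h2 s hs)
  rw [← Real.log_exp y]
  exact Real.log_le_log (Real.exp_pos _) h4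

/-! ### sums over primes -/

theorem lup_PP_add (f : ℕ → ℝ) (a b c : ℕ) (hab : a ≤ b) (hbc : b ≤ c) :
    ∑ p ∈ PP a c, f p = ∑ p ∈ PP a b, f p + ∑ p ∈ PP b c, f p := by
  unfold PP
  rw [← Finset.Ioc_union_Ioc_eq_Ioc hab hbc, Finset.filter_union, Finset.sum_union]
  apply Finset.disjoint_filter_filter
  rw [Finset.disjoint_left]
  intro x hx hx'
  rw [Finset.mem_Ioc] at hx hx'
  omega

theorem lup_log_div (N : ℕ) (hN : 1 ≤ N) :
    ∑ p ∈ PP 1 N, Real.log p / (p : ℝ) ≤ Real.log N + Real.log 4 := by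
  have hN0 : (0 : ℝ) < N := by exact_mod_cast hN
  have h1 : ∑ p ∈ PP 1 N, Real.log p * ((N / p : ℕ) : ℝ) ≤ N * Real.log N := by
    have e1 : ∑ p ∈ PP 1 N, Real.log p * ((N / p : ℕ) : ℝ) =
        ∑ p ∈ PP 1 N, ∑ n ∈ (Ioc 0 N).filter (fun n => p ∣ n), Real.log p := by
      apply Finset.sum_congr rfl
      intro p _
      rw [Finset.sum_const, Nat.Ioc_filter_dvd_card_eq_div, nsmul_eq_mul, mul_comm]
    have e2 : ∑ p ∈ PP 1 N, ∑ n ∈ (Ioc 0 N).filter (fun n => p ∣ n), Real.log p =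
        ∑ n ∈ Ioc 0 N, ∑ p ∈ (PP 1 N).filter (fun p => p ∣ n), Real.log p := by
      simp_rw [Finset.sum_filter]
      exact Finset.sum_comm
    have e3 : ∀ n ∈ Ioc 0 N, ∑ p ∈ (PP 1 N).filter (fun p => p ∣ n), Real.log p ≤ Real.log N := by
      intro n hn
      rw [Finset.mem_Ioc] at hn
      have hsub : (PP 1 N).filter (fun p => p ∣ n) ⊆ n.primeFactors := by
        intro p hp
        rw [Finset.mem_filter] at hp
        unfold PP at hp
        rw [Finset.mem_filter] at hp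
        exact Nat.mem_primeFactors.2 ⟨hp.1.2, hp.2, by omega⟩
      have f1 : ∑ p ∈ (PP 1 N).filter (fun p => p ∣ n), Real.log p ≤
          ∑ p ∈ n.primeFactors, Real.log p :=
        Finset.sum_le_sum_of_subset_of_nonneg hsub (fun p _ _ => Real.log_natCast_nonneg p)
      have f2 : ∑ p ∈ n.primeFactors, Real.log p = Real.log (∏ p ∈ n.primeFactors, (p : ℝ)) := by
        rw [Real.log_prod]
        intro p hp
        exact_mod_cast (Nat.prime_of_mem_primeFactors hp).ne_zero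
      have f3 : (∏ p ∈ n.primeFactors, (p : ℝ)) ≤ n := by
        have h9 : (∏ p ∈ n.primeFactors, p) ≤ n :=
          Nat.le_of_dvd hn.1 (Nat.prod_primeFactors_dvd n)
        have h10 : ((∏ p ∈ n.primeFactors, p : ℕ) : ℝ) ≤ n := Nat.cast_le.2 h9
        rwa [Nat.cast_prod] at h10
      have f4 : (0 : ℝ) < ∏ p ∈ n.primeFactors, (p : ℝ) :=
        Finset.prod_pos (fun p hp => by
          exact_mod_cast (Nat.prime_of_mem_primeFactors hp).pos)
      have f5 : Real.log (∏ p ∈ n.primeFactors, (p : ℝ)) ≤ Real.log N := by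
        apply Real.log_le_log f4
        exact f3.trans (by exact_mod_cast hn.2)
      linarith
    rw [e1, e2]
    calc ∑ n ∈ Ioc 0 N, ∑ p ∈ (PP 1 N).filter (fun p => p ∣ n), Real.log p
        ≤ ∑ n ∈ Ioc 0 N, Real.log N := Finset.sum_le_sum e3
      _ = N * Real.log N := by simp
  have h2 : ∑ p ∈ PP 1 N, Real.log p ≤ Real.log 4 * N := by
    have h3 := Chebyshev.theta_le_log4_mul_x (x := (N : ℝ)) hN0.le
    unfold Chebyshev.theta at h3
    rw [Nat.floor_natCast] at h3
    refine le_trans ?_ h3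
    apply Finset.sum_le_sum_of_subset_of_nonneg
    · intro p hp
      unfold PP at hp
      rw [Finset.mem_filter, Finset.mem_Ioc] at hp
      rw [Finset.mem_filter, Finset.mem_Ioc]
      exact ⟨⟨by omega, hp.1.2⟩, hp.2⟩
    · intro p _ _
      exact Real.log_natCast_nonneg p
  have h3 : N * ∑ p ∈ PP 1 N, Real.log p / (p : ℝ) ≤
      ∑ p ∈ PP 1 N, Real.log p * ((N / p : ℕ) : ℝ) + ∑ p ∈ PP 1 N, Real.log p := by
    rw [Finset.mul_sum, ← Finset.sum_add_distrib]
    apply Finset.sum_le_sum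
    intro p hp
    unfold PP at hp
    rw [Finset.mem_filter] at hp
    have hp0 : (0 : ℝ) < p := by exact_mod_cast hp.2.pos
    have h4 : (N : ℝ) / p ≤ ((N / p : ℕ) : ℝ) + 1 := by
      rw [← Nat.floor_div_eq_div (K := ℝ)]
      exact (Nat.lt_floor_add_one _).le
    have h5 := Real.log_natCast_nonneg p
    calc (N : ℝ) * (Real.log p / p) = Real.log p * (N / p) := by ring
      _ ≤ Real.log p * (((N / p : ℕ) : ℝ) + 1) := mul_le_mul_of_nonneg_left h4 h5
      _ = Real.log p * ((N / p : ℕ) : ℝ) + Real.log p := by ring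
  have h6 : N * ∑ p ∈ PP 1 N, Real.log p / (p : ℝ) ≤ N * (Real.log N + Real.log 4) := by
    nlinarith
  exact le_of_mul_le_mul_left h6 hN0

theorem lup_tail (C : ℝ) (hC : 0 ≤ C) (hM : ∀ u w : ℕ, 2 ≤ u → u ≤ w →
    |∑ p ∈ PP u w, 1 / (p : ℝ) - LL u w| ≤ C) (z : ℕ) (hz : 2 ≤ z) (J : ℕ) :
    ∑ p ∈ PP z (z ^ 2 ^ J), (p : ℝ) ^ (-(1 + 1 / Real.log z)) ≤
      (Real.log 2 + C) * ∑ j ∈ range J, (1 / 2 : ℝ) ^ (j + 1) := by
  have hz1 : (1 : ℝ) < z := by exact_mod_cast (by omega : 1 < z)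
  have hlz : 0 < Real.log z := Real.log_pos hz1
  have hl2 : 0 < Real.log 2 := Real.log_pos (by norm_num)
  induction J with
  | zero => simp [PP]
  | succ J ih =>
    have hz0 : 1 ≤ z := by omega
    have hpw : z ^ 2 ^ J ≤ z ^ 2 ^ (J + 1) :=
      Nat.pow_le_pow_right hz0 (Nat.pow_le_pow_right (by norm_num) (by omega))
    have hpz : z ≤ z ^ 2 ^ J := Nat.le_self_pow (by positivity) z
    rw [lup_PP_add _ z _ _ hpz hpw, Finset.sum_range_succ, mul_add]
    refine add_le_add ih ?_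
    have hu : 2 ≤ z ^ 2 ^ J := hz.trans hpz
    have h1 := (abs_le.1 (hM _ _ hu hpw)).2
    have hLL : LL (z ^ 2 ^ J) (z ^ 2 ^ (J + 1)) = Real.log 2 := by
      unfold LL
      push_cast
      rw [Real.log_pow, Real.log_pow]
      congr 1
      push_cast
      field_simp
      ring
    rw [hLL] at h1
    have h2 : ∀ p ∈ PP (z ^ 2 ^ J) (z ^ 2 ^ (J + 1)),
        (p : ℝ) ^ (-(1 + 1 / Real.log z)) ≤ (1 / (p : ℝ)) * (1 / 2 : ℝ) ^ (J + 1) := by
      intro p hp
      unfold PP at hp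
      rw [Finset.mem_filter, Finset.mem_Ioc] at hp
      have hp0 : (0 : ℝ) < p := by exact_mod_cast hp.2.pos
      have e1 : (p : ℝ) ^ (-(1 + 1 / Real.log z)) = (1 / (p : ℝ)) * (p : ℝ) ^ (-(1 / Real.log z)) := by
        rw [neg_add, Real.rpow_add hp0, Real.rpow_neg_one, one_div (p : ℝ)]
      rw [e1]
      apply mul_le_mul_of_nonneg_left _ (by positivity)
      have e2 : (2 : ℝ) ^ J * Real.log z ≤ Real.log p := by
        have e3 : ((z ^ 2 ^ J : ℕ) : ℝ) ≤ p := by exact_mod_cast hp.1.1.le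
        have e4 := Real.log_le_log (by positivity) e3
        push_cast at e4
        rw [Real.log_pow] at e4
        push_cast at e4
        exact e4
      rw [Real.rpow_def_of_pos hp0]
      have e5 : Real.log p * -(1 / Real.log z) ≤ -((J + 1 : ℕ) : ℝ) := by
        have e6 : ((J + 1 : ℕ) : ℝ) ≤ (2 : ℝ) ^ J := by
          exact_mod_cast (Nat.lt_two_pow_self : J < 2 ^ J)
        have e7 : (2 : ℝ) ^ J ≤ Real.log p / Real.log z := (le_div_iff₀ hlz).2 e2
        have e8 : Real.log p * -(1 / Real.log z) = -(Real.log p / Real.log z) := by ring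
        rw [e8]
        linarith
      have e9 : Real.exp (-1) ≤ 1 / 2 := by
        rw [Real.exp_neg, one_div]
        apply inv_anti₀ (by norm_num)
        have := Real.add_one_le_exp (1 : ℝ)
        linarith
      calc Real.exp (Real.log p * -(1 / Real.log z)) ≤ Real.exp (-((J + 1 : ℕ) : ℝ)) :=
            Real.exp_le_exp.2 e5
        _ = Real.exp (-1) ^ (J + 1) := by
            rw [← Real.exp_nat_mul]; congr 1; ring
        _ ≤ (1 / 2 : ℝ) ^ (J + 1) := pow_le_pow_left₀ (Real.exp_pos _).le e9 _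
    calc ∑ p ∈ PP (z ^ 2 ^ J) (z ^ 2 ^ (J + 1)), (p : ℝ) ^ (-(1 + 1 / Real.log z))
        ≤ ∑ p ∈ PP (z ^ 2 ^ J) (z ^ 2 ^ (J + 1)), (1 / (p : ℝ)) * (1 / 2 : ℝ) ^ (J + 1) :=
          Finset.sum_le_sum h2
      _ = (∑ p ∈ PP (z ^ 2 ^ J) (z ^ 2 ^ (J + 1)), (1 / (p : ℝ))) * (1 / 2 : ℝ) ^ (J + 1) := by
          rw [Finset.sum_mul]
      _ ≤ (Real.log 2 + C) * (1 / 2 : ℝ) ^ (J + 1) :=
          mul_le_mul_of_nonneg_right (by linarith) (by positivity)

theorem lup_tail' (C : ℝ) (hC : 0 ≤ C) (hM : ∀ u w : ℕ, 2 ≤ u → u ≤ w →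
    |∑ p ∈ PP u w, 1 / (p : ℝ) - LL u w| ≤ C) (z : ℕ) (hz : 2 ≤ z) (M : ℕ) :
    ∑ p ∈ PP z M, (p : ℝ) ^ (-(1 + 1 / Real.log z)) ≤ Real.log 2 + C := by
  have hl2 : 0 < Real.log 2 := Real.log_pos (by norm_num)
  have hM' : M ≤ z ^ 2 ^ M := by
    have h1 : M < 2 ^ M := Nat.lt_two_pow_self
    have h2 : 2 ^ M < 2 ^ 2 ^ M := Nat.lt_two_pow_self
    have h3 : 2 ^ 2 ^ M ≤ z ^ 2 ^ M := Nat.pow_le_pow_left hz _
    omega
  have h1 : ∑ p ∈ PP z M, (p : ℝ) ^ (-(1 + 1 / Real.log z)) ≤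
      ∑ p ∈ PP z (z ^ 2 ^ M), (p : ℝ) ^ (-(1 + 1 / Real.log z)) := by
    apply Finset.sum_le_sum_of_subset_of_nonneg
    · intro p hp
      unfold PP at hp ⊢
      rw [Finset.mem_filter, Finset.mem_Ioc] at hp ⊢
      exact ⟨⟨hp.1.1, hp.1.2.trans hM'⟩, hp.2⟩
    · intro p _ _
      exact Real.rpow_nonneg (Nat.cast_nonneg p) _
  have h2 := lup_tail C hC hM z hz M
  have h3 : ∑ j ∈ range M, (1 / 2 : ℝ) ^ (j + 1) ≤ 1 := by
    have h4 : ∀ n : ℕ, ∑ j ∈ range n, (1 / 2 : ℝ) ^ (j + 1) = 1 - (1 / 2 : ℝ) ^ n := by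
      intro n
      induction n with
      | zero => simp
      | succ n ih => rw [Finset.sum_range_succ, ih, pow_succ]; ring
    rw [h4]
    have : (0 : ℝ) ≤ (1 / 2 : ℝ) ^ M := by positivity
    linarith
  have h5 : (Real.log 2 + C) * ∑ j ∈ range M, (1 / 2 : ℝ) ^ (j + 1) ≤ (Real.log 2 + C) * 1 :=
    mul_le_mul_of_nonneg_left h3 (by linarith)
  linarith

theorem st_LUP (hMER : Pool.Agent.Helper17.SO.ST_MER) : ST_LUP := by
  obtain ⟨C, hC, hM⟩ := hMER
  refine ⟨3 + Real.log 2 + C + Real.log 3, ?_, ?_⟩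
  · have h1 : 0 < Real.log 2 := Real.log_pos (by norm_num)
    have h2 : 0 < Real.log 3 := Real.log_pos (by norm_num)
    linarith
  intro q z hq h2 hz
  have hz1 : (1 : ℝ) < z := by exact_mod_cast (by omega : 1 < z)
  have hlz : 0 < Real.log z := Real.log_pos hz1
  have hl2 : 0 < Real.log 2 := Real.log_pos (by norm_num)
  have hs : 1 < 1 + 1 / Real.log z := by
    have : 0 < 1 / Real.log z := by positivity
    linarith
  set s : ℝ := 1 + 1 / Real.log z with hsdef
  -- the difference on small primes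
  have hA : ∑ p ∈ PP 1 z, (jacobiSym (p : ℤ) q : ℝ) / p - ∑ p ∈ PP 1 z, lupf q hq s hs p ≤ 3 := by
    rw [← Finset.sum_sub_distrib]
    have h3 : ∀ p ∈ PP 1 z, (jacobiSym (p : ℤ) q : ℝ) / p - lupf q hq s hs p ≤
        (Real.log p / (p : ℝ)) * (1 / Real.log z) := by
      intro p hp
      unfold PP at hp
      rw [Finset.mem_filter] at hp
      have hp0 : (0 : ℝ) < p := by exact_mod_cast hp.2.pos
      rw [lup_f_apply]
      have e1 : (p : ℝ) ^ (-s) = (1 / (p : ℝ)) * (p : ℝ) ^ (-(1 / Real.log z)) := by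
        rw [hsdef, neg_add, Real.rpow_add hp0, Real.rpow_neg_one, one_div (p : ℝ)]
      rw [e1]
      have e2 : (p : ℝ) ^ (-(1 / Real.log z)) ≥ 1 - Real.log p * (1 / Real.log z) := by
        rw [Real.rpow_def_of_pos hp0]
        have := Real.add_one_le_exp (Real.log p * -(1 / Real.log z))
        linarith
      have e3 : (p : ℝ) ^ (-(1 / Real.log z)) ≤ 1 :=
        Real.rpow_le_one_of_one_le_of_nonpos (by exact_mod_cast hp.2.one_le)
          (by have : 0 < 1 / Real.log z := by positivity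
              linarith)
      have e4 := abs_le.1 (lup_abs_le q (p : ℤ))
      have e5 : (jacobiSym (p : ℤ) q : ℝ) / p - (jacobiSym (p : ℤ) q : ℝ) *
          ((1 / (p : ℝ)) * (p : ℝ) ^ (-(1 / Real.log z))) =
          (jacobiSym (p : ℤ) q : ℝ) * (1 - (p : ℝ) ^ (-(1 / Real.log z))) * (1 / (p : ℝ)) := by
        ring
      rw [e5]
      have e6 : (jacobiSym (p : ℤ) q : ℝ) * (1 - (p : ℝ) ^ (-(1 / Real.log z))) ≤
          Real.log p * (1 / Real.log z) := by
        nlinarith [e4.2]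
      calc (jacobiSym (p : ℤ) q : ℝ) * (1 - (p : ℝ) ^ (-(1 / Real.log z))) * (1 / (p : ℝ))
          ≤ (Real.log p * (1 / Real.log z)) * (1 / (p : ℝ)) :=
            mul_le_mul_of_nonneg_right e6 (by positivity)
        _ = (Real.log p / (p : ℝ)) * (1 / Real.log z) := by ring
    have h4 := lup_log_div z (by omega)
    calc ∑ p ∈ PP 1 z, ((jacobiSym (p : ℤ) q : ℝ) / p - lupf q hq s hs p)
        ≤ ∑ p ∈ PP 1 z, (Real.log p / (p : ℝ)) * (1 / Real.log z) := Finset.sum_le_sum h3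
      _ = (∑ p ∈ PP 1 z, (Real.log p / (p : ℝ))) * (1 / Real.log z) := by rw [Finset.sum_mul]
      _ ≤ (Real.log z + Real.log 4) * (1 / Real.log z) :=
          mul_le_mul_of_nonneg_right h4 (by positivity)
      _ = 1 + Real.log 4 / Real.log z := by field_simp
      _ ≤ 3 := by
          have e1 : Real.log 4 = 2 * Real.log 2 := by
            rw [show (4 : ℝ) = 2 ^ 2 by norm_num, Real.log_pow]; push_cast; ring
          have e2 : Real.log 2 ≤ Real.log z :=
            Real.log_le_log (by norm_num) (by exact_mod_cast hz)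
          have e3 : Real.log 4 / Real.log z ≤ 2 := by
            rw [div_le_iff₀ hlz]; linarith
          linarith
  have hB := lup_euler q hq h2 s hs
    (∑ p ∈ PP 1 z, (jacobiSym (p : ℤ) q : ℝ) / p - 3 - (Real.log 2 + C)) (z + 1) ?_
  · have hlq : 0 ≤ Real.log q := Real.log_natCast_nonneg q
    have e1 : Real.log (Real.log q + 3) ≤ Real.log 3 + Real.log (1 + Real.log q) := by
      rw [← Real.log_mul (by norm_num) (by linarith)]
      apply Real.log_le_log (by linarith)
      linarith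
    linarith
  · intro N hN
    have e1 : N.primesBelow = PP 1 (N - 1) := by
      ext p
      unfold Nat.primesBelow PP
      rw [Finset.mem_filter, Finset.mem_filter, Finset.mem_range, Finset.mem_Ioc]
      constructor
      · rintro ⟨h, hp⟩
        exact ⟨⟨hp.one_lt, by omega⟩, hp⟩
      · rintro ⟨h, hp⟩
        exact ⟨by omega, hp⟩
    rw [e1, lup_PP_add _ 1 z (N - 1) (by omega) (by omega)]
    have e2 := lup_tail' C hC hM z hz (N - 1)
    have e3 : -(∑ p ∈ PP z (N - 1), (p : ℝ) ^ (-(1 + 1 / Real.log z))) ≤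
        ∑ p ∈ PP z (N - 1), lupf q hq s hs p := by
      rw [← Finset.sum_neg_distrib]
      apply Finset.sum_le_sum
      intro p _
      have := (abs_le.1 (lup_f_norm q hq s hs p)).1
      exact this
    linarith

end Pool.Agent.Helper17.FP
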