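import Pool.Agent.Helper44.FP.Stmts
import Pool.Agent.Helper44.FP.Lib

/-!
# A unique tracial state has the averaging property
-/

namespace Pool.Agent.Helper37.FP

open Pool.Agent.Helper44.FP
open scoped Topology
open Filter

universe u v

section

variable {A : Type u} [CStarAlgebra A] {t : A → ℝ} {ι : Type v}

/-- the simultaneous unitary orbit -/
def orb (x : ι → A) : Set (ι → A) := {ξ | ∃ w ∈ unitary A, ξ = fun i => w * x i * star w}

/-- finite convex combinations of the elements of the simultaneous orbit -/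
def CC (x : ι → A) : Set (ι → A) := convexHull ℝ (orb x)

theorem mem_CC (x : ι → A) : x ∈ CC x :=
  subset_convexHull ℝ _ ⟨1, one_mem _, by simp⟩

/-- conjugation by a fixed element -/
noncomputable def cj (v : A) : (ι → A) →ₗ[ℝ] (ι → A) where
  toFun ξ := fun i => v * ξ i * star v
  map_add' ξ η := by
    funext i
    simp only [Pi.add_apply, mul_add, add_mul]
  map_smul' r ξ := by
    funext i
    simp only [Pi.smul_apply, RingHom.id_apply, mul_smul_comm, smul_mul_assoc]

theorem conj_mem {x : ι → A} {ξ : ι → A} (hξ : ξ ∈ CC x) {v : A} (hv : v ∈ unitary A) :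
    (fun i => v * ξ i * star v) ∈ CC x := by
  have h1 : orb x ⊆ (cj v) ⁻¹' (CC x) := by
    rintro _ ⟨w, hw, rfl⟩
    refine subset_convexHull ℝ _ ⟨v * w, mul_mem hv hw, ?_⟩
    funext i
    change v * (w * x i * star w) * star v = v * w * x i * star (v * w)
    rw [star_mul]
    simp only [mul_assoc]
  exact convexHull_min h1 ((convex_convexHull ℝ _).linear_preimage (cj v)) hξ

theorem t_mem (ht : IsTr t) {x : ι → A} {ξ : ι → A} (hξ : ξ ∈ CC x) (i : ι) :
    t (ξ i) = t (x i) := by
  have h1 : orb x ⊆ {ξ | t (ξ i) = t (x i)} := by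
    rintro _ ⟨w, hw, rfl⟩
    exact ht.unitary_conj hw (x i)
  refine convexHull_min h1 ?_ hξ
  intro a ha b hb p q hp hq hpq
  change t (p • a i + q • b i) = t (x i)
  rw [ht.add, ht.smul, ht.smul, ha, hb, ← add_mul, hpq, one_mul]

theorem norm_mem {x : ι → A} {ξ : ι → A} (hξ : ξ ∈ CC x) (i : ι) :
    ‖ξ i‖ ≤ ‖x i‖ := by
  have h1 : orb x ⊆ {ξ | ‖ξ i‖ ≤ ‖x i‖} := by
    rintro _ ⟨w, hw, rfl⟩
    change ‖w * x i * star w‖ ≤ ‖x i‖
    rw [CStarRing.norm_mul_mem_unitary _ (Unitary.star_mem hw),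
      CStarRing.norm_mem_unitary_mul _ hw]
  refine convexHull_min h1 ?_ hξ
  intro a ha b hb p q hp hq hpq
  change ‖p • a i + q • b i‖ ≤ ‖x i‖
  change ‖a i‖ ≤ ‖x i‖ at ha
  change ‖b i‖ ≤ ‖x i‖ at hb
  calc ‖p • a i + q • b i‖ ≤ ‖p • a i‖ + ‖q • b i‖ := norm_add_le _ _
    _ = p * ‖a i‖ + q * ‖b i‖ := by
        rw [norm_smul, norm_smul, Real.norm_of_nonneg hp, Real.norm_of_nonneg hq]
    _ ≤ p * ‖x i‖ + q * ‖x i‖ := by gcongr
    _ = ‖x i‖ := by rw [← add_mul, hpq, one_mul]

theorem smul_nn [PartialOrder A] [StarOrderedRing A] {p : ℝ} (hp : 0 ≤ p) {a : A} (ha : 0 ≤ a) :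
    0 ≤ p • a := by
  obtain ⟨b, rfl⟩ := CStarAlgebra.nonneg_iff_eq_star_mul_self.mp ha
  have h : p • (star b * b) = star (Real.sqrt p • b) * (Real.sqrt p • b) := by
    rw [star_smul, star_trivial (Real.sqrt p), smul_mul_smul_comm, Real.mul_self_sqrt hp]
  rw [h]
  exact star_mul_self_nonneg _

theorem nonneg_mem [PartialOrder A] [StarOrderedRing A] {x : ι → A} (hx : ∀ i, 0 ≤ x i)
    {ξ : ι → A} (hξ : ξ ∈ CC x) (i : ι) : 0 ≤ ξ i := by
  have h1 : orb x ⊆ {ξ | 0 ≤ ξ i} := by
    rintro _ ⟨w, hw, rfl⟩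
    exact star_right_conjugate_nonneg (hx i) w
  refine convexHull_min h1 ?_ hξ
  intro a ha b hb p q hp hq hpq
  exact add_nonneg (smul_nn hp ha) (smul_nn hq hb)

/-- the squared 2-norm -/
noncomputable def NN [Fintype ι] (t : A → ℝ) (ξ : ι → A) : ℝ := ∑ i, t (star (ξ i) * ξ i)

theorem NN_nonneg [Fintype ι] (ht : IsTr t) (ξ : ι → A) : 0 ≤ NN t ξ :=
  Finset.sum_nonneg (fun i _ => ht.nonneg (ξ i))

/-- the infimum -/
noncomputable def N0 [Fintype ι] (t : A → ℝ) (x : ι → A) : ℝ := sInf (NN t '' CC x)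

theorem N0_le [Fintype ι] (ht : IsTr t) {x ξ : ι → A} (hξ : ξ ∈ CC x) : N0 t x ≤ NN t ξ :=
  csInf_le ⟨0, by rintro _ ⟨η, _, rfl⟩; exact NN_nonneg ht η⟩ ⟨ξ, hξ, rfl⟩

theorem exists_seq [Fintype ι] (x : ι → A) : ∃ ξ : ℕ → ι → A, (∀ n, ξ n ∈ CC x) ∧
    ∀ n, NN t (ξ n) < N0 t x + 1 / ((n : ℝ) + 1) := by
  have h : ∀ n : ℕ, ∃ ξ ∈ CC x, NN t ξ < N0 t x + 1 / ((n : ℝ) + 1) := by
    intro n
    have hpos : (0 : ℝ) < 1 / ((n : ℝ) + 1) := by positivity
    obtain ⟨_, ⟨ξ, hξ, rfl⟩, h⟩ := exists_lt_of_csInf_lt (s := NN t '' CC x)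
      ⟨_, x, mem_CC x, rfl⟩ (lt_add_of_pos_right (N0 t x) hpos)
    exact ⟨ξ, hξ, h⟩
  choose ξ h1 h2 using h
  exact ⟨ξ, h1, h2⟩

theorem parallelogram [Fintype ι] (ht : IsTr t) {x ξ : ι → A} (hξ : ξ ∈ CC x) {v : A}
    (hv : v ∈ unitary A) (i : ι) :
    t (star (ξ i - v * ξ i * star v) * (ξ i - v * ξ i * star v)) ≤ 4 * (NN t ξ - N0 t x) := by
  have hη := conj_mem hξ hv
  have hζ : (1 / 2 : ℝ) • ξ + (1 / 2 : ℝ) • (fun i => v * ξ i * star v) ∈ CC x :=
    (convex_convexHull ℝ _) hξ hη (by norm_num) (by norm_num) (by norm_num)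
  have h0 := N0_le ht hζ
  have hid : ∀ j, t (star (ξ j - v * ξ j * star v) * (ξ j - v * ξ j * star v)) =
      4 * t (star (ξ j) * ξ j) - 4 * t (star ((1 / 2 : ℝ) • ξ j + (1 / 2 : ℝ) • (v * ξ j * star v)) *
        ((1 / 2 : ℝ) • ξ j + (1 / 2 : ℝ) • (v * ξ j * star v))) := by
    intro j
    set a := ξ j
    set b := v * a * star v with hb
    have hbb : t (star b * b) = t (star a * a) := by
      have : star b * b = v * (star a * a) * star v := by
        rw [hb]
        simp only [star_mul, star_star]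
        calc v * (star a * star v) * (v * a * star v)
            = v * star a * (star v * v) * a * star v := by simp only [mul_assoc]
          _ = v * (star a * a) * star v := by
              rw [Unitary.star_mul_self_of_mem hv, mul_one]
              simp only [mul_assoc]
      rw [this, ht.unitary_conj hv]
    have e1 : star (a - b) * (a - b) = star a * a - star a * b - star b * a + star b * b := by
      rw [star_sub, sub_mul, mul_sub, mul_sub]
      abel
    have e2 : star ((1 / 2 : ℝ) • a + (1 / 2 : ℝ) • b) * ((1 / 2 : ℝ) • a + (1 / 2 : ℝ) • b) =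
        (1 / 4 : ℝ) • (star a * a + star a * b + star b * a + star b * b) := by
      rw [← smul_add, star_smul, star_trivial, smul_mul_smul_comm, star_add, add_mul, mul_add,
        mul_add]
      have h4 : (1 / 2 : ℝ) * (1 / 2) = 1 / 4 := by norm_num
      rw [h4]
      congr 1
      abel
    rw [e1, e2, ht.smul, ht.add, ht.sub, ht.sub, ht.add, ht.add, ht.add, hbb]
    ring
  have hsum : ∑ j, t (star (ξ j - v * ξ j * star v) * (ξ j - v * ξ j * star v)) =
      4 * NN t ξ - 4 * NN t ((1 / 2 : ℝ) • ξ + (1 / 2 : ℝ) • (fun i => v * ξ i * star v)) := by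
    unfold NN
    rw [Finset.mul_sum, Finset.mul_sum, ← Finset.sum_sub_distrib]
    exact Finset.sum_congr rfl (fun j _ => hid j)
  have hle := Finset.single_le_sum (f := fun j =>
    t (star (ξ j - v * ξ j * star v) * (ξ j - v * ξ j * star v)))
    (fun j _ => ht.nonneg _) (Finset.mem_univ i)
  rw [hsum] at hle
  linarith

/-- bounded families converge along ultrafilters -/
theorem exists_lim (U : Ultrafilter ℕ) {f : ℕ → ℝ} {M : ℝ} (h : ∀ n, |f n| ≤ M) :
    ∃ L, Tendsto f U (𝓝 L) := by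
  obtain ⟨L, _, hL⟩ := (isCompact_Icc (a := -M) (b := M)).ultrafilter_le_nhds (U.map f) (by
    rw [Ultrafilter.coe_map, le_principal_iff, mem_map]
    exact Filter.univ_mem' (fun n => abs_le.1 (h n)))
  exact ⟨L, hL⟩

theorem lim_trace [PartialOrder A] [StarOrderedRing A] [Fintype ι] (ht : IsTr t)
    (huniq : ∀ t' : A → ℝ, IsTr t' → t' = t) {x : ι → A} (hx : ∀ i, 0 ≤ x i) (i : ι)
    (hxi : 0 < t (x i)) {ξ : ℕ → ι → A} (h1 : ∀ n, ξ n ∈ CC x)
    (h2 : ∀ n, NN t (ξ n) < N0 t x + 1 / ((n : ℝ) + 1)) (U : Ultrafilter ℕ)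
    (hU : (U : Filter ℕ) ≤ atTop) (y : A) :
    Tendsto (fun n => t (y * ξ n i)) U (𝓝 (t (x i) * t y)) := by
  have hbd : ∀ a : A, ∀ n, |t (a * ξ n i)| ≤ ‖a‖ * ‖x i‖ := by
    intro a n
    refine (ht.abs_le_norm _).trans ((norm_mul_le _ _).trans ?_)
    exact mul_le_mul_of_nonneg_left (norm_mem (h1 n) i) (norm_nonneg a)
  choose T hT using fun a : A => exists_lim U (hbd a)
  -- commutators with unitaries are small
  have hcomm : ∀ a b : A, Tendsto (fun n => t (a * (b * ξ n i - ξ n i * b))) U (𝓝 0) := by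
    let B : Submodule ℂ A :=
      { carrier := {b | ∀ a : A, Tendsto (fun n => t (a * (b * ξ n i - ξ n i * b))) U (𝓝 0)}
        zero_mem' := by
          intro a
          simp only [zero_mul, mul_zero, sub_zero, ht.zero]
          exact tendsto_const_nhds
        add_mem' := by
          intro b c hb hc a
          have h := (hb a).add (hc a)
          rw [add_zero] at h
          refine h.congr (fun n => ?_)
          rw [← ht.add]
          congr 1
          rw [add_mul, mul_add, ← mul_add]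
          congr 1
          abel
        smul_mem' := by
          intro c b hb a
          refine (hb (c • a)).congr (fun n => ?_)
          congr 1
          rw [smul_mul_assoc, mul_smul_comm, smul_mul_assoc, ← smul_sub, mul_smul_comm] }
    have hB : B = ⊤ := by
      rw [eq_top_iff, ← CStarAlgebra.span_unitary, Submodule.span_le]
      intro v hv a
      have hlim : Tendsto (fun n : ℕ => n2 t (star a) * √(4 * (1 / ((n : ℝ) + 1)))) U (𝓝 0) := by
        have h3 : Tendsto (fun n : ℕ => n2 t (star a) * √(4 * (1 / ((n : ℝ) + 1)))) atTop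
            (𝓝 (n2 t (star a) * √(4 * 0))) :=
          ((tendsto_one_div_add_atTop_nhds_zero_nat.const_mul 4).sqrt).const_mul _
        rw [mul_zero, Real.sqrt_zero, mul_zero] at h3
        exact h3.mono_left hU
      refine squeeze_zero_norm (fun n => ?_) hlim
      rw [Real.norm_eq_abs]
      refine (ht.abs_mul_le _ _).trans ?_
      refine mul_le_mul_of_nonneg_left ?_ (n2_nonneg _ _)
      have e : v * ξ n i - ξ n i * v = -((ξ n i - v * ξ n i * star v) * v) := by
        rw [sub_mul, mul_assoc (v * ξ n i), Unitary.star_mul_self_of_mem hv, mul_one]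
        abel
      rw [e, ht.n2_neg, ht.n2_mul_unitary hv]
      refine Real.sqrt_le_sqrt ?_
      have h4 := parallelogram ht (h1 n) hv i
      have h5 := h2 n
      linarith
    intro a b
    have hb : b ∈ B := by
      rw [hB]
      exact Submodule.mem_top
    exact hb a
  have hTadd : ∀ a b, T (a + b) = T a + T b := by
    intro a b
    refine tendsto_nhds_unique (hT (a + b)) (((hT a).add (hT b)).congr (fun n => ?_))
    rw [add_mul, ht.add]
  have hTsmul : ∀ (r : ℝ) (a : A), T (r • a) = r * T a := by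
    intro r a
    refine tendsto_nhds_unique (hT (r • a)) (((hT a).const_mul r).congr (fun n => ?_))
    rw [smul_mul_assoc, ht.smul]
  have hTone : T 1 = t (x i) := by
    refine tendsto_nhds_unique (hT 1) (tendsto_const_nhds.congr (fun n => ?_))
    rw [one_mul, t_mem ht (h1 n)]
  have hTcomm : ∀ a b, T (a * b) = T (b * a) := by
    intro a b
    have h3 := (hcomm a b).add (hT (b * a))
    rw [zero_add] at h3
    refine tendsto_nhds_unique (hT (a * b)) (h3.congr (fun n => ?_))
    rw [mul_sub, ht.sub, ← mul_assoc, ← mul_assoc, ht.cyc b a]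
    ring
  have hTnn : ∀ a, 0 ≤ T (star a * a) := by
    intro a
    refine ge_of_tendsto' (hT (star a * a)) (fun n => ?_)
    exact ht.mul_pos (star_mul_self_nonneg a) (nonneg_mem hx (h1 n) i)
  have hTstar : ∀ a, T (star a) = T a := by
    intro a
    refine tendsto_nhds_unique (hT (star a)) ((hT a).congr (fun n => ?_))
    have hs : star (ξ n i) = ξ n i := (IsSelfAdjoint.of_nonneg (nonneg_mem hx (h1 n) i))
    rw [← ht.star_eq (star a * ξ n i), star_mul, star_star, hs, ht.comm]
  have hfin := huniq (fun a => T a / t (x i))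
    { add := fun a b => by rw [hTadd, add_div]
      smul := fun r a => by rw [hTsmul, mul_div_assoc]
      one := by rw [hTone, div_self hxi.ne']
      comm := fun a b => by rw [hTcomm]
      nonneg := fun a => div_nonneg (hTnn a) hxi.le
      star_eq := fun a => by rw [hTstar] }
  have hTy : T y = t (x i) * t y := by
    have h3 : T y / t (x i) = t y := congrFun hfin y
    rw [← h3]
    field_simp
  rw [← hTy]
  exact hT y

/-- simultaneous approximation for elements `≥ 0` of positive trace -/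
theorem exists_mix [PartialOrder A] [StarOrderedRing A] [Fintype ι] (ht : IsTr t)
    (huniq : ∀ t' : A → ℝ, IsTr t' → t' = t) {x : ι → A} (hx : ∀ i, 0 ≤ x i)
    (hxi : ∀ i, 0 < t (x i)) (Y : Finset A) {κ : ℝ} (hκ : 0 < κ) :
    ∃ ξ ∈ CC x, ∀ i, ∀ y ∈ Y, |t (ξ i * y) - t (x i) * t y| ≤ κ := by
  obtain ⟨ξ, h1, h2⟩ := exists_seq (t := t) x
  have hev : ∀ᶠ n in (hyperfilter ℕ : Filter ℕ), ∀ i, ∀ y ∈ Y,
      |t (ξ n i * y) - t (x i) * t y| ≤ κ := by
    rw [eventually_all]
    intro i
    rw [eventually_all_finset]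
    intro y _
    have h3 := lim_trace ht huniq hx i (hxi i) h1 h2 (hyperfilter ℕ) Nat.hyperfilter_le_atTop y
    have h4 := (Metric.tendsto_nhds.1 h3) κ hκ
    filter_upwards [h4] with n hn
    rw [Real.dist_eq, ht.comm] at hn
    exact hn.le
  obtain ⟨n, hn⟩ := hev.exists
  exact ⟨ξ n, h1 n, hn⟩

end

/-- module UNIQ -/
theorem UNIQ_proof : ST_UNIQ.{u} := by
  intro A _ _ _ t ht huniq S hS κ hκ
  let x : S → A := fun s => (s : A) + (‖(s : A)‖ + 1) • (1 : A)
  have hx1 : ∀ s : S, (1 : A) ≤ x s := by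
    intro s
    have h1 : -(algebraMap ℝ A ‖(s : A)‖) ≤ (s : A) :=
      (hS s s.2).neg_algebraMap_norm_le_self
    have h2 : x s - 1 = (s : A) + algebraMap ℝ A ‖(s : A)‖ := by
      change (s : A) + (‖(s : A)‖ + 1) • (1 : A) - 1 = _
      rw [add_smul, one_smul, Algebra.algebraMap_eq_smul_one]
      abel
    rw [← sub_nonneg, h2, ← sub_neg_eq_add, sub_nonneg]
    exact h1
  have hx0 : ∀ s : S, (0 : A) ≤ x s := fun s => zero_le_one.trans (hx1 s)
  have hxt : ∀ s : S, 0 < t (x s) := by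
    intro s
    have := ht.mono (hx1 s)
    rw [ht.one] at this
    linarith
  obtain ⟨ξ, hξ, hmix⟩ := exists_mix ht huniq hx0 hxt S hκ
  rw [CC, mem_convexHull_iff_exists_fintype] at hξ
  obtain ⟨κ', hfin, l, z, hl0, hl1, hz, hsum⟩ := hξ
  choose w hw hzw using hz
  let e : Fin (Fintype.card κ') ≃ κ' := (Fintype.equivFin κ').symm
  refine ⟨Fintype.card κ', fun i => w (e i), fun i => l (e i), fun i => hw _, fun i => hl0 _,
    ?_, ?_⟩
  · rw [e.sum_comp l, hl1]
  · intro a ha y hy
    rw [e.sum_comp (fun i => l i * t (w i * a * star (w i) * y))]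
    have h1 := hmix ⟨a, ha⟩ y hy
    have h2 : ξ ⟨a, ha⟩ = ∑ i, l i • (w i * a * star (w i)) + (‖a‖ + 1) • (1 : A) := by
      rw [← hsum, Finset.sum_apply]
      have h3 : ∀ i, (l i • z i) ⟨a, ha⟩ = l i • (w i * a * star (w i)) +
          l i • ((‖a‖ + 1) • (1 : A)) := by
        intro i
        rw [hzw i, Pi.smul_apply]
        change l i • (w i * (a + (‖a‖ + 1) • (1 : A)) * star (w i)) = _
        rw [mul_add, add_mul, smul_add, mul_smul_comm, mul_one, smul_mul_assoc,
          Unitary.mul_star_self_of_mem (hw i)]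
      rw [Finset.sum_congr rfl (fun i _ => h3 i), Finset.sum_add_distrib, ← Finset.sum_smul, hl1,
        one_smul]
    have h4 : t (x ⟨a, ha⟩) = t a + (‖a‖ + 1) := by
      change t (a + (‖a‖ + 1) • (1 : A)) = _
      rw [ht.add, ht.smul, ht.one, mul_one]
    rw [h2, h4, add_mul, ht.add, Finset.sum_mul, ht.sum, smul_mul_assoc, ht.smul, one_mul] at h1
    simp_rw [smul_mul_assoc, ht.smul] at h1
    refine le_trans (le_of_eq ?_) h1
    congr 1
    ring

end Pool.Agent.Helper37.FP
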